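import Pool.Agent.Q19.HO.Stm

set_option autoImplicit false
set_option linter.unusedSectionVars false

/-! Job HO-MOD. -/

namespace Pool.Agent.Q119.HO.MOD

open Pool.Agent.Q19.HO Matrix

variable {K : Type} [Field K]

theorem cards (n : ℕ) :
    Fintype.card {p : Fin n × Fin n // p.1 ≤ p.2} =
      Fintype.card {p : Fin n × Fin n // p.1 < p.2} + n ∧
    Fintype.card {p : Fin n × Fin n // p.1 < p.2} +
      Fintype.card {p : Fin n × Fin n // p.1 ≤ p.2} = n * n := by
  rw [Fintype.card_subtype, Fintype.card_subtype]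
  constructor
  · have h1 : (Finset.univ.filter fun p : Fin n × Fin n => p.1 ≤ p.2) =
        (Finset.univ.filter fun p : Fin n × Fin n => p.1 < p.2) ∪
          (Finset.univ.image fun i : Fin n => (i, i)) := by
      ext ⟨i, j⟩
      simp only [Finset.mem_filter, Finset.mem_univ, true_and, Finset.mem_union, Finset.mem_image,
        Prod.mk.injEq]
      constructor
      · intro h
        rcases h.lt_or_eq with h | h
        · exact Or.inl h
        · exact Or.inr ⟨i, rfl, h⟩
      · rintro (h | ⟨a, h, h'⟩)
        · exact h.le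
        · rw [← h, ← h']
    have h2 : Disjoint (Finset.univ.filter fun p : Fin n × Fin n => p.1 < p.2)
        (Finset.univ.image fun i : Fin n => (i, i)) := by
      rw [Finset.disjoint_left]
      rintro ⟨i, j⟩ h h'
      simp only [Finset.mem_filter, Finset.mem_univ, true_and, Finset.mem_image,
        Prod.mk.injEq] at h h'
      obtain ⟨a, rfl, rfl⟩ := h'
      exact lt_irrefl _ h
    rw [h1, Finset.card_union_of_disjoint h2, Finset.card_image_of_injective _
      (fun a b h => (Prod.mk.inj h).1), Finset.card_univ, Fintype.card_fin]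
  · have h1 := Finset.card_filter_add_card_filter_not
      (s := (Finset.univ : Finset (Fin n × Fin n))) (fun p : Fin n × Fin n => p.1 ≤ p.2)
    rw [Finset.card_univ, Fintype.card_prod, Fintype.card_fin] at h1
    have h2 : (Finset.univ.filter fun p : Fin n × Fin n => ¬ p.1 ≤ p.2).card =
        (Finset.univ.filter fun p : Fin n × Fin n => p.1 < p.2).card := by
      apply Finset.card_bij (fun p _ => (p.2, p.1))
      · rintro ⟨i, j⟩ h
        simp only [Finset.mem_filter, Finset.mem_univ, true_and, not_le] at h ⊢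
        exact h
      · rintro ⟨i, j⟩ _ ⟨a, b⟩ _ h
        simp only [Prod.mk.injEq] at h ⊢
        exact ⟨h.2, h.1⟩
      · rintro ⟨i, j⟩ h
        simp only [Finset.mem_filter, Finset.mem_univ, true_and] at h
        exact ⟨(j, i), by simpa using h, rfl⟩
    omega

/-- a basis of the imaginary octonions -/
def oo (k : Fin 7) : Oct K := fun i => if k = 0 then (if i = 0 then 1 else if i = 1 then -1 else 0)
  else if (i : ℕ) = (k : ℕ) + 1 then 1 else 0

theorem oo_im (k : Fin 7) : Im (oo k : Oct K) := by
  unfold Im oo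
  by_cases hk : k = 0
  · simp [hk]
  · have h1 : (k : ℕ) ≠ 0 := fun h => hk (Fin.ext h)
    simp [hk]

theorem sum_oo0 (f : Fin 7 → K) : ∑ k, f k * (oo k : Oct K) 0 = f 0 := by
  simp [oo]

theorem sum_ook (f : Fin 7 → K) (k : Fin 7) (hk : k ≠ 0) :
    ∑ l, f l * (oo l : Oct K) k.succ = f k := by
  rw [Finset.sum_eq_single k]
  · have : (oo k : Oct K) k.succ = 1 := by
      simp [oo, hk]
    rw [this, mul_one]
  · intro l _ hl
    have : (oo l : Oct K) k.succ = 0 := by
      unfold oo
      have hk' : (k : ℕ) ≠ 0 := fun h => hk (Fin.ext h)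
      split_ifs with h1 h2 h3 h4
      · exact absurd (congrArg Fin.val h2) (by simp)
      · have h5 := congrArg Fin.val h3
        simp at h5
        omega
      · rfl
      · rw [Fin.val_succ] at h4
        exact absurd (Fin.ext (by omega)) hl
      · rfl
    rw [this, mul_zero]
  · intro h
    exact absurd (Finset.mem_univ _) h

theorem ten_add {n : ℕ} (s s' : Matrix (Fin n) (Fin n) K) (o : Oct K) :
    ten (s + s') o = ten s o + ten s' o := by
  funext i j
  exact add_smul _ _ _

theorem ten_smul {n : ℕ} (r : K) (s : Matrix (Fin n) (Fin n) K) (o : Oct K) :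
    ten (r • s) o = r • ten s o := by
  funext i j
  exact mul_smul _ _ _

/-- real matrices and `ten` -/
theorem re_mul_ten {n : ℕ} (a s : Matrix (Fin n) (Fin n) K) (o : Oct K) :
    re a * ten s o = ten (a * s) o := by
  funext i j
  show ∑ k, (a i k • (1 : Oct K)) * (s k j • o) = (∑ k, a i k * s k j) • o
  rw [Finset.sum_smul]
  refine Finset.sum_congr rfl fun k _ => ?_
  rw [Pool.Agent.Q19.HO.smul_mul', Pool.Agent.Q19.HO.mul_smul', one_mul, smul_smul]

theorem ten_mul_re {n : ℕ} (a s : Matrix (Fin n) (Fin n) K) (o : Oct K) :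
    ten s o * re a = ten (s * a) o := by
  funext i j
  show ∑ k, (s i k • o) * (a k j • (1 : Oct K)) = (∑ k, s i k * a k j) • o
  rw [Finset.sum_smul]
  refine Finset.sum_congr rfl fun k _ => ?_
  rw [Pool.Agent.Q19.HO.smul_mul', Pool.Agent.Q19.HO.mul_smul', mul_one, smul_smul]

/-- the skew matrices `u` with all `ten u o` in `M` -/
def UU {n : ℕ} (M : Submodule K (Mat n K)) : Submodule K (Matrix (Fin n) (Fin n) K) where
  carrier := {u | uᵀ = -u ∧ ∀ o : Oct K, Im o → ten u o ∈ M}
  add_mem' := fun {a b} ha hb => ⟨by rw [transpose_add, ha.1, hb.1]; abel, fun o ho => by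
    rw [ten_add]
    exact M.add_mem (ha.2 o ho) (hb.2 o ho)⟩
  zero_mem' := ⟨by simp, fun o _ => by
    have : ten (0 : Matrix (Fin n) (Fin n) K) o = 0 := by
      funext i j
      exact zero_smul _ _
    rw [this]
    exact M.zero_mem⟩
  smul_mem' := fun r a ha => ⟨by rw [transpose_smul, ha.1, smul_neg], fun o ho => by
    rw [ten_smul]
    exact M.smul_mem r (ha.2 o ho)⟩

/-- seven copies of `UU M` embed in `M` -/
theorem dim_UU {n : ℕ} (M : Submodule K (Mat n K)) :
    7 * Module.finrank K (UU M) ≤ Module.finrank K M := by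
  let Φ : (Fin 7 → UU M) →ₗ[K] M :=
    { toFun := fun u => ⟨∑ k, ten (u k : Matrix (Fin n) (Fin n) K) (oo k),
        M.sum_mem fun k _ => (u k).2.2 _ (oo_im k)⟩
      map_add' := fun u v => Subtype.ext (by
        show ∑ k, ten (((u k : Matrix (Fin n) (Fin n) K)) + (v k : Matrix (Fin n) (Fin n) K)) (oo k) =
          ∑ k, ten (u k : Matrix (Fin n) (Fin n) K) (oo k) +
            ∑ k, ten (v k : Matrix (Fin n) (Fin n) K) (oo k)
        rw [← Finset.sum_add_distrib]
        exact Finset.sum_congr rfl fun k _ => ten_add _ _ _)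
      map_smul' := fun r u => Subtype.ext (by
        show ∑ k, ten (r • (u k : Matrix (Fin n) (Fin n) K)) (oo k) =
          r • ∑ k, ten (u k : Matrix (Fin n) (Fin n) K) (oo k)
        rw [Finset.smul_sum]
        exact Finset.sum_congr rfl fun k _ => ten_smul _ _ _) }
  have hΦ : Function.Injective Φ := by
    rw [← LinearMap.ker_eq_bot, LinearMap.ker_eq_bot']
    intro u hu
    have h1 : ∑ k, ten (u k : Matrix (Fin n) (Fin n) K) (oo k) = 0 := congrArg Subtype.val hu
    have h2 : ∀ i j m, ∑ k, (u k : Matrix (Fin n) (Fin n) K) i j * (oo k : Oct K) m = 0 := by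
      intro i j m
      have h3 := congrFun (congrFun h1 i) j
      rw [Matrix.sum_apply] at h3
      have h4 := congrFun h3 m
      have h5 : (∑ k, ten (u k : Matrix (Fin n) (Fin n) K) (oo k) i j) m =
          ∑ k, (u k : Matrix (Fin n) (Fin n) K) i j * (oo k : Oct K) m := by
        exact Finset.sum_apply m Finset.univ (fun k => ten (u k : Matrix (Fin n) (Fin n) K) (oo k) i j)
      rw [← h5]
      exact h4
    funext k
    apply Subtype.ext
    funext i j
    by_cases hk : k = 0
    · subst hk
      have := h2 i j 0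
      rw [sum_oo0 (fun k => (u k : Matrix (Fin n) (Fin n) K) i j)] at this
      exact this
    · have := h2 i j k.succ
      rw [sum_ook (fun k => (u k : Matrix (Fin n) (Fin n) K) i j) k hk] at this
      exact this
  have h := LinearMap.finrank_le_finrank_of_injective hΦ
  rw [Module.finrank_pi_fintype, Finset.sum_const, Finset.card_univ, Fintype.card_fin,
    smul_eq_mul] at h
  exact h

theorem dim_SymK (n : ℕ) : Module.finrank K (SymK n K) ≤
    Fintype.card {p : Fin n × Fin n // p.1 ≤ p.2} := by
  let S : SymK n K →ₗ[K] ({p : Fin n × Fin n // p.1 ≤ p.2} → K) :=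
    { toFun := fun s p => (s : Matrix (Fin n) (Fin n) K) p.1.1 p.1.2
      map_add' := fun s t => rfl
      map_smul' := fun r s => rfl }
  have hS : Function.Injective S := by
    intro s t hst
    apply Subtype.ext
    have key : ∀ i j : Fin n, i ≤ j → (s : Matrix (Fin n) (Fin n) K) i j =
        (t : Matrix (Fin n) (Fin n) K) i j := fun i j h => congrFun hst ⟨(i, j), h⟩
    funext i j
    rcases le_total i j with h | h
    · exact key i j h
    · have h1 : (s : Matrix (Fin n) (Fin n) K) i j = (s : Matrix (Fin n) (Fin n) K) j i :=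
        congrFun (congrFun s.2 j) i
      have h2 : (t : Matrix (Fin n) (Fin n) K) i j = (t : Matrix (Fin n) (Fin n) K) j i :=
        congrFun (congrFun t.2 j) i
      rw [h1, h2]
      exact key j i h
  have h := LinearMap.finrank_le_finrank_of_injective hS
  rwa [Module.finrank_fintype_fun_eq_card] at h

theorem dim_skew {n : ℕ} (U : Submodule K (Matrix (Fin n) (Fin n) K))
    (hU : ∀ a : Matrix (Fin n) (Fin n) K, aᵀ = -a → a ∈ U) :
    Fintype.card {p : Fin n × Fin n // p.1 < p.2} ≤ Module.finrank K U := by
  let mk : ({p : Fin n × Fin n // p.1 < p.2} → K) → Matrix (Fin n) (Fin n) K := fun f i j =>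
    if h : i < j then f ⟨(i, j), h⟩ else if h' : j < i then - f ⟨(j, i), h'⟩ else 0
  have hmk : ∀ f, (mk f)ᵀ = - mk f := by
    intro f
    funext i j
    show mk f j i = - mk f i j
    simp only [mk]
    rcases lt_trichotomy i j with h | h | h
    · simp [h, h.not_gt]
    · subst h
      simp
    · simp [h, h.not_gt]
  let T : ({p : Fin n × Fin n // p.1 < p.2} → K) →ₗ[K] U :=
    { toFun := fun f => ⟨mk f, hU _ (hmk f)⟩
      map_add' := fun f g => Subtype.ext (by
        funext i j
        show mk (f + g) i j = mk f i j + mk g i j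
        simp only [mk]
        split_ifs
        · rfl
        · simp only [Pi.add_apply]
          ring
        · simp)
      map_smul' := fun r f => Subtype.ext (by
        funext i j
        show mk (r • f) i j = r * mk f i j
        simp only [mk]
        split_ifs
        · rfl
        · simp only [Pi.smul_apply, smul_eq_mul]
          ring
        · simp) }
  have hT : Function.Injective T := by
    intro f g hfg
    funext ⟨⟨i, j⟩, h⟩
    have h1 : mk f = mk g := congrArg Subtype.val hfg
    have h2 := congrFun (congrFun h1 i) j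
    simp only [mk] at h2
    rw [dif_pos h, dif_pos h] at h2
    exact h2
  have h := LinearMap.finrank_le_finrank_of_injective hT
  rwa [Module.finrank_fintype_fun_eq_card] at h

/-- an element on which the functionals with `ξ 1 = 0` vanish is a scalar -/
theorem scalar_of (x : Oct K) (h2 : (2 : K) ≠ 0)
    (h : ∀ ξ : Oct K →ₗ[K] K, ξ 1 = 0 → ξ x = 0) : x = (x 0) • (1 : Oct K) := by
  have hk : ∀ k : Fin 8, (1 : Oct K) k = 0 → x k = 0 := by
    intro k hk
    exact h ⟨⟨fun y => y k, fun y z => rfl⟩, fun r y => rfl⟩ hk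
  have h01 : x 0 = x 1 := by
    have := h ⟨⟨fun y => y 0 - y 1, fun y z => by simp only [add_ap]; ring⟩,
      fun r y => by simp only [smul_ap, RingHom.id_apply, smul_eq_mul]; ring⟩
      (by show (1 : Oct K) 0 - (1 : Oct K) 1 = 0; rw [one0, one1, sub_self])
    exact sub_eq_zero.1 this
  apply oct_ext
  intro i
  rw [smul_ap]
  fin_cases i
  · show x 0 = x 0 * (1 : Oct K) 0
    rw [one0, mul_one]
  · show x 1 = x 0 * (1 : Oct K) 1
    rw [one1, mul_one, h01]
  · show x 2 = x 0 * (1 : Oct K) 2
    rw [one2, mul_zero, hk 2 one2]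
  · show x 3 = x 0 * (1 : Oct K) 3
    rw [one3, mul_zero, hk 3 one3]
  · show x 4 = x 0 * (1 : Oct K) 4
    rw [one4, mul_zero, hk 4 one4]
  · show x 5 = x 0 * (1 : Oct K) 5
    rw [one5, mul_zero, hk 5 one5]
  · show x 6 = x 0 * (1 : Oct K) 6
    rw [one6, mul_zero, hk 6 one6]
  · show x 7 = x 0 * (1 : Oct K) 7
    rw [one7, mul_zero, hk 7 one7]

theorem star_add_self (x : Oct K) : star x + x = (x 0 + x 1) • (1 : Oct K) := oct_ext fun i => by
  fin_cases i <;> simp [add_ap, smul_ap, star0, star1, star2, star3, star4, star5, star6, star7,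
    one0, one1, one2, one3, one4, one5, one6, one7] <;> ring

theorem t (h1 : S_STAB) (h2 : S_SO) : Pool.Agent.Q19.HO.S_MOD := by
  intro K _ n hK hn M hMS hdim hder hskew X hX
  by_contra hcon
  -- a functional which does not vanish on some entry
  obtain ⟨ξ, hξ1, i₀, j₀, hξ⟩ : ∃ ξ : Oct K →ₗ[K] K, ξ 1 = 0 ∧ ∃ i j, ξ (X i j) ≠ 0 := by
    by_contra hno
    push Not at hno
    apply hcon
    have hsc : ∀ i j, X i j = (X i j 0) • (1 : Oct K) := fun i j =>
      scalar_of (X i j) hK fun ξ hξ => hno ξ hξ i j
    refine ⟨fun i j => X i j 0, ?_, ?_⟩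
    · show Matrix.transpose _ = _
      funext i j
      show X j i 0 = X i j 0
      have h3 := hMS hX i j
      have h4 := congrFun h3 0
      rw [← h4]
      show X j i 0 = X j i 1
      have h5 := congrFun (hsc j i) 1
      rw [h5]
      show X j i 0 = X j i 0 * (1 : Oct K) 1
      rw [one1, mul_one]
    · funext i j
      exact hsc i j
  set s : Matrix (Fin n) (Fin n) K := fun i j => ξ (X i j) with hs
  have hstar : ∀ x : Oct K, ξ (star x) = - ξ x := by
    intro x
    have h3 := congrArg ξ (star_add_self x)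
    rw [map_add, map_smul, hξ1, smul_zero] at h3
    exact eq_neg_of_add_eq_zero_left h3
  have hsU : s ∈ UU M := by
    refine ⟨?_, fun o ho => h1 K n hK M hder ξ hξ1 o ho X hX⟩
    funext i j
    show ξ (X j i) = - ξ (X i j)
    have h3 := hMS hX i j
    rw [← h3, hstar, neg_neg]
  have hne : UU M ≠ ⊥ := by
    intro h0
    rw [h0, Submodule.mem_bot] at hsU
    exact hξ (congrFun (congrFun hsU i₀) j₀)
  have hst : ∀ a : Matrix (Fin n) (Fin n) K, aᵀ = -a → ∀ u ∈ UU M, a * u - u * a ∈ UU M := by
    intro a ha u hu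
    refine ⟨?_, fun o ho => ?_⟩
    · rw [transpose_sub, transpose_mul, transpose_mul, ha, hu.1]
      rw [neg_sub, neg_mul_neg, neg_mul_neg]
    · have h3 := hskew a ha _ (hu.2 o ho)
      rw [re_mul_ten, ten_mul_re] at h3
      have h4 : ten (a * u - u * a) o = ten (a * u) o - ten (u * a) o := by
        funext i j
        exact sub_smul _ _ _
      rw [h4]
      exact h3
  have hd := dim_UU M
  have hS := dim_SymK (K := K) n
  obtain ⟨hc1, hc2⟩ := cards n
  rcases h2 K n hK hn (UU M) (fun u hu => hu.1) hne hst with ⟨h5, hall⟩ | ⟨h4, u, hu, v, hv, hli⟩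
  · have h6 := dim_skew (UU M) hall
    nlinarith
  · have h6 : 2 ≤ Module.finrank K (UU M) := by
      have hli' : LinearIndependent K ![(⟨u, hu⟩ : UU M), ⟨v, hv⟩] := by
        apply LinearIndependent.of_comp (UU M).subtype
        convert hli using 1
        funext i
        fin_cases i <;> rfl
      have := hli'.fintype_card_le_finrank
      simpa using this
    subst h4
    omega

end Pool.Agent.Q119.HO.MOD
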