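import Pool.Agent.Q19.HO.Stm

set_option autoImplicit false
set_option linter.unusedSectionVars false

/-! Job HO-ZO: the centre of the automorphism group of the split octonions. -/

namespace Pool.Agent.Q119.HO.ZO

open Pool.Agent.Q19.HO

variable {K : Type} [Field K]

/-- basis vectors -/
def E (k : Fin 8) : Oct K := fun i => if i = k then 1 else 0

def tau12F (x : Oct K) : Oct K := (![x 0, x 1, x 2 + x 3, x 3, x 4, x 5, x 6 - x 5, x 7] : Fin 8 → K)
lemma tau12F0 (x : Oct K) : tau12F x 0 = x 0 := rfl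
lemma tau12F1 (x : Oct K) : tau12F x 1 = x 1 := rfl
lemma tau12F2 (x : Oct K) : tau12F x 2 = x 2 + x 3 := rfl
lemma tau12F3 (x : Oct K) : tau12F x 3 = x 3 := rfl
lemma tau12F4 (x : Oct K) : tau12F x 4 = x 4 := rfl
lemma tau12F5 (x : Oct K) : tau12F x 5 = x 5 := rfl
lemma tau12F6 (x : Oct K) : tau12F x 6 = x 6 - x 5 := rfl
lemma tau12F7 (x : Oct K) : tau12F x 7 = x 7 := rfl

def tau12G (x : Oct K) : Oct K := (![x 0, x 1, x 2 - x 3, x 3, x 4, x 5, x 6 + x 5, x 7] : Fin 8 → K)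
lemma tau12G0 (x : Oct K) : tau12G x 0 = x 0 := rfl
lemma tau12G1 (x : Oct K) : tau12G x 1 = x 1 := rfl
lemma tau12G2 (x : Oct K) : tau12G x 2 = x 2 - x 3 := rfl
lemma tau12G3 (x : Oct K) : tau12G x 3 = x 3 := rfl
lemma tau12G4 (x : Oct K) : tau12G x 4 = x 4 := rfl
lemma tau12G5 (x : Oct K) : tau12G x 5 = x 5 := rfl
lemma tau12G6 (x : Oct K) : tau12G x 6 = x 6 + x 5 := rfl
lemma tau12G7 (x : Oct K) : tau12G x 7 = x 7 := rfl

def tau12 : Oct K ≃ₗ[K] Oct K where
  toFun := tau12F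
  invFun := tau12G
  map_add' := fun x y => oct_ext fun i => by
    fin_cases i <;> simp [tau12F0, tau12F1, tau12F2, tau12F3, tau12F4, tau12F5, tau12F6, tau12F7, add_ap] <;> ring
  map_smul' := fun r x => oct_ext fun i => by
    fin_cases i <;> simp [tau12F0, tau12F1, tau12F2, tau12F3, tau12F4, tau12F5, tau12F6, tau12F7, smul_ap] <;> ring
  left_inv := fun x => oct_ext fun i => by
    fin_cases i <;> simp [tau12F0, tau12F1, tau12F2, tau12F3, tau12F4, tau12F5, tau12F6, tau12F7, tau12G0, tau12G1, tau12G2, tau12G3, tau12G4, tau12G5, tau12G6, tau12G7]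
  right_inv := fun x => oct_ext fun i => by
    fin_cases i <;> simp [tau12F0, tau12F1, tau12F2, tau12F3, tau12F4, tau12F5, tau12F6, tau12F7, tau12G0, tau12G1, tau12G2, tau12G3, tau12G4, tau12G5, tau12G6, tau12G7]

theorem tau12_mem : (tau12 : Oct K ≃ₗ[K] Oct K) ∈ AutO K := fun x y => by
  show tau12F (x * y) = tau12F x * tau12F y
  exact oct_ext fun i => by
    fin_cases i <;> simp [tau12F0, tau12F1, tau12F2, tau12F3, tau12F4, tau12F5, tau12F6, tau12F7, mul0, mul1, mul2, mul3, mul4, mul5, mul6, mul7] <;> ring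

def tau23F (x : Oct K) : Oct K := (![x 0, x 1, x 2, x 3 + x 4, x 4, x 5, x 6, x 7 - x 6] : Fin 8 → K)
lemma tau23F0 (x : Oct K) : tau23F x 0 = x 0 := rfl
lemma tau23F1 (x : Oct K) : tau23F x 1 = x 1 := rfl
lemma tau23F2 (x : Oct K) : tau23F x 2 = x 2 := rfl
lemma tau23F3 (x : Oct K) : tau23F x 3 = x 3 + x 4 := rfl
lemma tau23F4 (x : Oct K) : tau23F x 4 = x 4 := rfl
lemma tau23F5 (x : Oct K) : tau23F x 5 = x 5 := rfl
lemma tau23F6 (x : Oct K) : tau23F x 6 = x 6 := rfl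
lemma tau23F7 (x : Oct K) : tau23F x 7 = x 7 - x 6 := rfl

def tau23G (x : Oct K) : Oct K := (![x 0, x 1, x 2, x 3 - x 4, x 4, x 5, x 6, x 7 + x 6] : Fin 8 → K)
lemma tau23G0 (x : Oct K) : tau23G x 0 = x 0 := rfl
lemma tau23G1 (x : Oct K) : tau23G x 1 = x 1 := rfl
lemma tau23G2 (x : Oct K) : tau23G x 2 = x 2 := rfl
lemma tau23G3 (x : Oct K) : tau23G x 3 = x 3 - x 4 := rfl
lemma tau23G4 (x : Oct K) : tau23G x 4 = x 4 := rfl
lemma tau23G5 (x : Oct K) : tau23G x 5 = x 5 := rfl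
lemma tau23G6 (x : Oct K) : tau23G x 6 = x 6 := rfl
lemma tau23G7 (x : Oct K) : tau23G x 7 = x 7 + x 6 := rfl

def tau23 : Oct K ≃ₗ[K] Oct K where
  toFun := tau23F
  invFun := tau23G
  map_add' := fun x y => oct_ext fun i => by
    fin_cases i <;> simp [tau23F0, tau23F1, tau23F2, tau23F3, tau23F4, tau23F5, tau23F6, tau23F7, add_ap] <;> ring
  map_smul' := fun r x => oct_ext fun i => by
    fin_cases i <;> simp [tau23F0, tau23F1, tau23F2, tau23F3, tau23F4, tau23F5, tau23F6, tau23F7, smul_ap] <;> ring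
  left_inv := fun x => oct_ext fun i => by
    fin_cases i <;> simp [tau23F0, tau23F1, tau23F2, tau23F3, tau23F4, tau23F5, tau23F6, tau23F7, tau23G0, tau23G1, tau23G2, tau23G3, tau23G4, tau23G5, tau23G6, tau23G7]
  right_inv := fun x => oct_ext fun i => by
    fin_cases i <;> simp [tau23F0, tau23F1, tau23F2, tau23F3, tau23F4, tau23F5, tau23F6, tau23F7, tau23G0, tau23G1, tau23G2, tau23G3, tau23G4, tau23G5, tau23G6, tau23G7]

theorem tau23_mem : (tau23 : Oct K ≃ₗ[K] Oct K) ∈ AutO K := fun x y => by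
  show tau23F (x * y) = tau23F x * tau23F y
  exact oct_ext fun i => by
    fin_cases i <;> simp [tau23F0, tau23F1, tau23F2, tau23F3, tau23F4, tau23F5, tau23F6, tau23F7, mul0, mul1, mul2, mul3, mul4, mul5, mul6, mul7] <;> ring

def rhoF (x : Oct K) : Oct K := (![x 0, x 1, x 3, x 4, x 2, x 6, x 7, x 5] : Fin 8 → K)
lemma rhoF0 (x : Oct K) : rhoF x 0 = x 0 := rfl
lemma rhoF1 (x : Oct K) : rhoF x 1 = x 1 := rfl
lemma rhoF2 (x : Oct K) : rhoF x 2 = x 3 := rfl
lemma rhoF3 (x : Oct K) : rhoF x 3 = x 4 := rfl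
lemma rhoF4 (x : Oct K) : rhoF x 4 = x 2 := rfl
lemma rhoF5 (x : Oct K) : rhoF x 5 = x 6 := rfl
lemma rhoF6 (x : Oct K) : rhoF x 6 = x 7 := rfl
lemma rhoF7 (x : Oct K) : rhoF x 7 = x 5 := rfl

def rhoG (x : Oct K) : Oct K := (![x 0, x 1, x 4, x 2, x 3, x 7, x 5, x 6] : Fin 8 → K)
lemma rhoG0 (x : Oct K) : rhoG x 0 = x 0 := rfl
lemma rhoG1 (x : Oct K) : rhoG x 1 = x 1 := rfl
lemma rhoG2 (x : Oct K) : rhoG x 2 = x 4 := rfl
lemma rhoG3 (x : Oct K) : rhoG x 3 = x 2 := rfl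
lemma rhoG4 (x : Oct K) : rhoG x 4 = x 3 := rfl
lemma rhoG5 (x : Oct K) : rhoG x 5 = x 7 := rfl
lemma rhoG6 (x : Oct K) : rhoG x 6 = x 5 := rfl
lemma rhoG7 (x : Oct K) : rhoG x 7 = x 6 := rfl

def rho : Oct K ≃ₗ[K] Oct K where
  toFun := rhoF
  invFun := rhoG
  map_add' := fun x y => oct_ext fun i => by
    fin_cases i <;> simp [rhoF0, rhoF1, rhoF2, rhoF3, rhoF4, rhoF5, rhoF6, rhoF7, add_ap] <;> ring
  map_smul' := fun r x => oct_ext fun i => by
    fin_cases i <;> simp [rhoF0, rhoF1, rhoF2, rhoF3, rhoF4, rhoF5, rhoF6, rhoF7, smul_ap] <;> ring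
  left_inv := fun x => oct_ext fun i => by
    fin_cases i <;> simp [rhoF0, rhoF1, rhoF2, rhoF3, rhoF4, rhoF5, rhoF6, rhoF7, rhoG0, rhoG1, rhoG2, rhoG3, rhoG4, rhoG5, rhoG6, rhoG7]
  right_inv := fun x => oct_ext fun i => by
    fin_cases i <;> simp [rhoF0, rhoF1, rhoF2, rhoF3, rhoF4, rhoF5, rhoF6, rhoF7, rhoG0, rhoG1, rhoG2, rhoG3, rhoG4, rhoG5, rhoG6, rhoG7]

theorem rho_mem : (rho : Oct K ≃ₗ[K] Oct K) ∈ AutO K := fun x y => by
  show rhoF (x * y) = rhoF x * rhoF y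
  exact oct_ext fun i => by
    fin_cases i <;> simp [rhoF0, rhoF1, rhoF2, rhoF3, rhoF4, rhoF5, rhoF6, rhoF7, mul0, mul1, mul2, mul3, mul4, mul5, mul6, mul7] <;> ring

def sigF (x : Oct K) : Oct K := (![x 1, x 0, -x 5, -x 6, -x 7, -x 2, -x 3, -x 4] : Fin 8 → K)
lemma sigF0 (x : Oct K) : sigF x 0 = x 1 := rfl
lemma sigF1 (x : Oct K) : sigF x 1 = x 0 := rfl
lemma sigF2 (x : Oct K) : sigF x 2 = -x 5 := rfl
lemma sigF3 (x : Oct K) : sigF x 3 = -x 6 := rfl
lemma sigF4 (x : Oct K) : sigF x 4 = -x 7 := rfl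
lemma sigF5 (x : Oct K) : sigF x 5 = -x 2 := rfl
lemma sigF6 (x : Oct K) : sigF x 6 = -x 3 := rfl
lemma sigF7 (x : Oct K) : sigF x 7 = -x 4 := rfl

def sigG (x : Oct K) : Oct K := (![x 1, x 0, -x 5, -x 6, -x 7, -x 2, -x 3, -x 4] : Fin 8 → K)
lemma sigG0 (x : Oct K) : sigG x 0 = x 1 := rfl
lemma sigG1 (x : Oct K) : sigG x 1 = x 0 := rfl
lemma sigG2 (x : Oct K) : sigG x 2 = -x 5 := rfl
lemma sigG3 (x : Oct K) : sigG x 3 = -x 6 := rfl
lemma sigG4 (x : Oct K) : sigG x 4 = -x 7 := rfl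
lemma sigG5 (x : Oct K) : sigG x 5 = -x 2 := rfl
lemma sigG6 (x : Oct K) : sigG x 6 = -x 3 := rfl
lemma sigG7 (x : Oct K) : sigG x 7 = -x 4 := rfl

def sig : Oct K ≃ₗ[K] Oct K where
  toFun := sigF
  invFun := sigG
  map_add' := fun x y => oct_ext fun i => by
    fin_cases i <;> simp [sigF0, sigF1, sigF2, sigF3, sigF4, sigF5, sigF6, sigF7, add_ap] <;> ring
  map_smul' := fun r x => oct_ext fun i => by
    fin_cases i <;> simp [sigF0, sigF1, sigF2, sigF3, sigF4, sigF5, sigF6, sigF7, smul_ap] <;> ring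
  left_inv := fun x => oct_ext fun i => by
    fin_cases i <;> simp [sigF0, sigF1, sigF2, sigF3, sigF4, sigF5, sigF6, sigF7, sigG0, sigG1, sigG2, sigG3, sigG4, sigG5, sigG6, sigG7]
  right_inv := fun x => oct_ext fun i => by
    fin_cases i <;> simp [sigF0, sigF1, sigF2, sigF3, sigF4, sigF5, sigF6, sigF7, sigG0, sigG1, sigG2, sigG3, sigG4, sigG5, sigG6, sigG7]

theorem sig_mem : (sig : Oct K ≃ₗ[K] Oct K) ∈ AutO K := fun x y => by
  show sigF (x * y) = sigF x * sigF y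
  exact oct_ext fun i => by
    fin_cases i <;> simp [sigF0, sigF1, sigF2, sigF3, sigF4, sigF5, sigF6, sigF7, mul0, mul1, mul2, mul3, mul4, mul5, mul6, mul7] <;> ring


theorem t : S_ZO := by
  intro K _ h2
  refine ⟨fun t ht hc => ?_, tau12, tau12_mem, ?_⟩
  · have c12 : ∀ x, t (tau12F x) = tau12F (t x) := fun x =>
      congrArg (fun s : Oct K ≃ₗ[K] Oct K => s x) (hc tau12 tau12_mem)
    have c23 : ∀ x, t (tau23F x) = tau23F (t x) := fun x =>
      congrArg (fun s : Oct K ≃ₗ[K] Oct K => s x) (hc tau23 tau23_mem)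
    have crho : ∀ x, t (rhoF x) = rhoF (t x) := fun x =>
      congrArg (fun s : Oct K ≃ₗ[K] Oct K => s x) (hc rho rho_mem)
    have csig : ∀ x, t (sigF x) = sigF (t x) := fun x =>
      congrArg (fun s : Oct K ≃ₗ[K] Oct K => s x) (hc sig sig_mem)
    have rank1 : ∀ x : Oct K, (tau12F (tau23F x - x) - (tau23F x - x)) = x 4 • E 2 := fun x =>
      oct_ext fun i => by
        fin_cases i <;> simp [tau12F0, tau12F1, tau12F2, tau12F3, tau12F4, tau12F5, tau12F6,
          tau12F7, tau23F0, tau23F1, tau23F2, tau23F3, tau23F4, tau23F5, tau23F6, tau23F7,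
          sub_ap, smul_ap, E]
    have key : ∀ x : Oct K, t (x 4 • E 2) = (t x) 4 • E 2 := by
      intro x
      rw [← rank1 x, ← rank1 (t x), map_sub, map_sub, c12, map_sub, c23]
    set c : K := (t (E 4)) 4 with hcdef
    have e2 : t (E 2) = c • E 2 := by
      have := key (E 4)
      have h4 : (E 4 : Oct K) 4 = 1 := by simp [E]
      rw [h4, one_smul] at this
      exact this
    have rE : rhoF (E 2 : Oct K) = E 4 ∧ rhoF (E 4 : Oct K) = E 3 := by
      constructor <;> exact oct_ext fun i => by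
        fin_cases i <;> simp [rhoF0, rhoF1, rhoF2, rhoF3, rhoF4, rhoF5, rhoF6, rhoF7, E]
    have rS : ∀ (r : K) (x : Oct K), rhoF (r • x) = r • rhoF x := fun r x =>
      (rho : Oct K ≃ₗ[K] Oct K).map_smul r x
    have sS : ∀ (r : K) (x : Oct K), sigF (r • x) = r • sigF x := fun r x =>
      (sig : Oct K ≃ₗ[K] Oct K).map_smul r x
    have e4 : t (E 4) = c • E 4 := by
      rw [← rE.1, crho, e2, rS]
    have e3 : t (E 3) = c • E 3 := by
      rw [← rE.2, crho, e4, rS]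
    have sE : sigF (E 2 : Oct K) = - E 5 ∧ sigF (E 3 : Oct K) = - E 6 ∧
        sigF (E 4 : Oct K) = - E 7 := by
      refine ⟨?_, ?_, ?_⟩ <;> exact oct_ext fun i => by
        fin_cases i <;> simp [sigF0, sigF1, sigF2, sigF3, sigF4, sigF5, sigF6, sigF7, E, neg_ap]
    have e5 : t (E 5) = c • E 5 := by
      have h := csig (E 2)
      rw [e2, sS, sE.1, map_neg, smul_neg] at h
      exact neg_injective h
    have e6 : t (E 6) = c • E 6 := by
      have h := csig (E 3)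
      rw [e3, sS, sE.2.1, map_neg, smul_neg] at h
      exact neg_injective h
    have e7 : t (E 7) = c • E 7 := by
      have h := csig (E 4)
      rw [e4, sS, sE.2.2, map_neg, smul_neg] at h
      exact neg_injective h
    have m23 : (E 2 : Oct K) * E 3 = E 7 := oct_ext fun i => by
      fin_cases i <;> simp [mul0, mul1, mul2, mul3, mul4, mul5, mul6, mul7, E]
    have m25 : (E 2 : Oct K) * E 5 = E 0 := oct_ext fun i => by
      fin_cases i <;> simp [mul0, mul1, mul2, mul3, mul4, mul5, mul6, mul7, E]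
    have m52 : (E 5 : Oct K) * E 2 = E 1 := oct_ext fun i => by
      fin_cases i <;> simp [mul0, mul1, mul2, mul3, mul4, mul5, mul6, mul7, E]
    have hc0 : c ≠ 0 := by
      intro h0
      rw [h0, zero_smul] at e2
      have h3 : (E 2 : Oct K) = 0 := by
        rw [← map_zero t] at e2
        exact t.injective e2
      have h4 := congrArg (fun x : Oct K => x 2) h3
      simp [E, zero_ap] at h4
    have hc1 : c = 1 := by
      have h := ht (E 2) (E 3)
      rw [m23, e2, e3, e7, Pool.Agent.Q19.HO.smul_mul', Pool.Agent.Q19.HO.mul_smul', m23] at h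
      have h4 := congrArg (fun x : Oct K => x 7) h
      simp only [smul_ap, E, if_true, mul_one] at h4
      have h5 : c * (c - 1) = 0 := by linear_combination -h4
      rcases mul_eq_zero.1 h5 with h6 | h6
      · exact absurd h6 hc0
      · linear_combination h6
    rw [hc1] at e2 e3 e4 e5 e6 e7
    simp only [one_smul] at e2 e3 e4 e5 e6 e7
    have e0 : t (E 0) = E 0 := by
      have h := ht (E 2) (E 5)
      rw [m25, e2, e5, m25] at h
      exact h
    have e1 : t (E 1) = E 1 := by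
      have h := ht (E 5) (E 2)
      rw [m52, e2, e5, m52] at h
      exact h
    apply LinearEquiv.ext
    intro x
    have hx : x = x 0 • E 0 + x 1 • E 1 + x 2 • E 2 + x 3 • E 3 + x 4 • E 4 + x 5 • E 5 +
        x 6 • E 6 + x 7 • E 7 := oct_ext fun i => by
      fin_cases i <;> simp [E, add_ap, smul_ap]
    show t x = x
    conv_lhs => rw [hx]
    rw [map_add, map_add, map_add, map_add, map_add, map_add, map_add, map_smul, map_smul, map_smul,
      map_smul, map_smul, map_smul, map_smul, map_smul, e0, e1, e2, e3, e4, e5, e6, e7]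
    exact hx.symm
  · intro h
    have h3 := congrArg (fun s : Oct K ≃ₗ[K] Oct K => (s (E 3)) 2) h
    have h4 : tau12F (E 3 : Oct K) 2 = 1 := by
      simp [tau12F2, E]
    have h5 : tau12F (E 3 : Oct K) 2 = (E 3 : Oct K) 2 := h3
    rw [h4] at h5
    simp [E] at h5

end Pool.Agent.Q119.HO.ZO
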